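import Pool.Agent.H.MP_a08d7f_lc.Defs
import Pool.Agent.Lib.lead.CXGraphRed

namespace Pool.Agent.H.MP_a08d7f_lc

open Pool.Agent.Lib.CX

def pth (n : ℕ) (T : ℕ × ℕ × ℕ → Bool) (e : ℕ × ℕ) : List ℕ :=
  e.1 :: ((List.range n).filter fun m => T (e.1, e.2, m) || T (e.2, e.1, m)) ++ [e.2]
def prs (n : ℕ) : List (ℕ × ℕ) := (List.range n ×ˢ List.range n).filter fun e => e.1 < e.2
def sys (n : ℕ) (T : ℕ × ℕ × ℕ → Bool) : Gr × List (List ℕ) :=
  ((List.replicate n (), (prs n).filter fun e => (pth n T e).length = 2), (prs n).map (pth n T))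

theorem mem_prs {n} {e : ℕ × ℕ} : e ∈ prs n ↔ e.1 < e.2 ∧ e.2 < n := by
  obtain ⟨u, v⟩ := e
  simp [prs]; omega

theorem inf2 {q : List ℕ} {u v x y} (hq : q <:+: [u, v]) (j : Joins q x y) (ne : x ≠ y) : q = [u, v] := by
  refine hq.eq_of_length_le ?_
  rcases q with _ | ⟨a, _ | ⟨b, q⟩⟩ <;> simp [Joins] at j ⊢
  omega

theorem inf3 {q : List ℕ} {u m v x y} (hq : q <:+: [u, m, v]) (j : Joins q x y) (ne : x ≠ y) :
    q = [u, m] ∨ q = [m, v] ∨ q = [u, m, v] := by
  rcases List.infix_cons_iff.1 hq with h | h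
  · rcases q with _ | ⟨a, _ | ⟨b, _ | ⟨c, q⟩⟩⟩ <;> simp [Joins] at j h ⊢ <;> first | omega | simp [h]
  · exact .inr (.inl (inf2 h j ne))

theorem jj {q r : List ℕ} {u v x y} (a : Joins q u v) (b : Joins q x y) (c : Joins r x y) : Joins r u v := by
  simp only [Joins] at *
  rcases a with ⟨a, a'⟩ | ⟨a, a'⟩ <;> simp only [a, a', Option.some.injEq] at b <;>
    rcases b with ⟨rfl, rfl⟩ | ⟨rfl, rfl⟩ <;> first | exact c | exact c.symm

theorem gen (n : ℕ) (T : ℕ × ℕ × ℕ → Bool) (S : ℕ → ℕ → ℕ → Prop)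
    (hS : ∀ u v m, S u v m ↔ T (u, v, m) = true ∨ T (v, u, m) = true) (h1 : ∀ u v m k, S u v m → S u v k → m = k)
    (h2 : ∀ u v m, S u v m → u ≠ m ∧ ∀ k, ¬S u m k) :
    (PathSys (sys n T).1 (sys n T).2 ∧ Consistent (sys n T).2) ∧ (HasReduction (sys n T).1 (sys n T).2 ↔
      ∃ c : ℕ → Bool, (∃ u < n, c u = true) ∧ (∃ u < n, c u = false) ∧
        ∀ u < n, ∀ v < n, ∀ m < n, u ≠ v → S u v m → c u = c v → c m = c u) := by
  have sy : ∀ u v m, S u v m → S v u m := fun u v m h => by rw [hS] at *; exact h.symm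
  have hn : (sys n T).1.n = n := by simp [sys, Gr.n]
  have sh : ∀ u v, (pth n T (u, v) = [u, v] ∧ ∀ m < n, ¬S u v m) ∨ ∃ m < n, S u v m ∧ pth n T (u, v) = [u, m, v] :=
    fun u v => by
    have a : ∀ m, m ∈ ((List.range n).filter fun m => T (u, v, m) || T (v, u, m)) ↔ m < n ∧ S u v m := by simp [hS]
    have b : ((List.range n).filter fun m => T (u, v, m) || T (v, u, m)).Nodup := List.nodup_range.filter _
    simp only [pth]
    generalize List.filter _ _ = L at a b
    rcases L with _ | ⟨m, _ | ⟨k, L⟩⟩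
    · exact .inl ⟨rfl, fun m h k => by simpa using (a m).2 ⟨h, k⟩⟩
    · exact .inr ⟨m, ((a m).1 (by simp)).1, ((a m).1 (by simp)).2, rfl⟩
    · simp [h1 u v m k ((a m).1 (by simp)).2 ((a k).1 (by simp)).2] at b
  have jn : ∀ e u v, Joins (pth n T e) u v ↔ e = (u, v) ∨ e = (v, u) := fun ⟨x, y⟩ u v => by
    rcases sh x y with ⟨h, -⟩ | ⟨m, -, -, h⟩ <;> simp [h, Joins]
  have ad : ∀ u < n, ∀ v < n, u ≠ v → (∀ m, ¬S u v m) → ∃ hu hv, (sys n T).1.G.Adj ⟨u, hu⟩ ⟨v, hv⟩ :=
    fun u hu v hv ne h => by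
    refine ⟨hn.symm ▸ hu, hn.symm ▸ hv, (Gr.adj_iff _ _ _).2 ⟨ne, ?_⟩⟩
    simp only [sys, List.mem_filter, mem_prs, decide_eq_true_eq]
    rcases sh u v with ⟨a, -⟩ | ⟨m, -, a, -⟩ <;> rcases sh v u with ⟨b, -⟩ | ⟨k, -, b, -⟩
    · simp only [a, b]; simp; omega
    · exact absurd (sy _ _ _ b) (h _)
    · exact absurd a (h _)
    · exact absurd a (h _)
  have two : ∀ u v r, r ∈ (sys n T).2 → Joins r u v → (∀ m, ¬S u v m) → r = [u, v] ∨ r = [v, u] := fun u v r hr j h => by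
    obtain ⟨e, -, rfl⟩ := List.mem_map.1 hr
    rcases (jn _ _ _).1 j with rfl | rfl
    · exact .inl ((sh u v).resolve_right fun ⟨m, _, a, _⟩ => h m a).1
    · exact .inr ((sh v u).resolve_right fun ⟨m, _, a, _⟩ => h m (sy _ _ _ a)).1
  have nd : (prs n).Nodup := (List.nodup_range.product List.nodup_range).filter _
  refine ⟨⟨⟨List.forall_mem_map.2 fun ⟨u, v⟩ he => ?_, fun u hu v hv ne => ?_⟩,
    List.forall_mem_map.2 fun ⟨u, v⟩ he q hq r hr x y j1 j2 ne => ?_⟩, ?_⟩
  · have := mem_prs.1 he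
    simp only at this
    rcases sh u v with ⟨a, b⟩ | ⟨m, c, a, b⟩
    · refine a ▸ ⟨by simp, by simp; omega, List.isChain_pair.2 ⟨hn.symm ▸ by omega, hn.symm ▸ this.2,
        (Gr.adj_iff _ _ _).2 ⟨this.1.ne, .inl ?_⟩⟩⟩
      simp [sys, he, a]
    · have d := h2 _ _ _ a
      have e := h2 _ _ _ (sy _ _ _ a)
      refine b ▸ ⟨by simp, by simp; omega, List.isChain_cons_cons.2 ⟨ad u (by omega) m c d.1 d.2,
        List.isChain_pair.2 (ad m c v this.2 e.1.symm fun k h => e.2 k (sy _ _ _ h))⟩⟩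
  · rw [hn] at hu hv
    obtain ⟨i, hi, e⟩ := List.getElem_of_mem (mem_prs.2 (by simp only; omega) : (min u v, max u v) ∈ prs n)
    have k : ∀ j : Fin (sys n T).2.length, Joins (sys n T).2[j] u v ↔
        (prs n)[j.1]'(by simpa [sys] using j.2) = (min u v, max u v) := fun j => by
      have := mem_prs.1 (List.getElem_mem (l := prs n) (n := j) (by simpa [sys] using j.2))
      rw [show (sys n T).2[j] = pth n T ((prs n)[j.1]'(by simpa [sys] using j.2)) from List.getElem_map _, jn]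
      simp only [Prod.ext_iff]
      omega
    refine ⟨⟨i, by simpa [sys] using hi⟩, (k _).2 e, fun j hj => Fin.ext ?_⟩
    exact (nd.getElem_inj_iff).1 (((k j).1 hj).trans e.symm)
  · have all : Joins r u v → r = pth n T (u, v) := fun j => by
      obtain ⟨e, he', rfl⟩ := List.mem_map.1 hr
      have := mem_prs.1 he
      have := mem_prs.1 he'
      rcases (jn _ _ _).1 j with rfl | rfl
      · rfl
      · simp only at *; omega
    rcases sh u v with ⟨a, b⟩ | ⟨m, c, a, b⟩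
    · rw [a] at hq all
      obtain rfl := inf2 hq j1 ne
      exact .inl (all (jj (.inl ⟨rfl, rfl⟩) j1 j2))
    · have d := h2 _ _ _ a
      have e := h2 _ _ _ (sy _ _ _ a)
      rw [b] at hq all
      rcases inf3 hq j1 ne with rfl | rfl | rfl
      · exact two u m r hr (jj (.inl ⟨rfl, rfl⟩) j1 j2) d.2
      · exact (two v m r hr (jj (.inr ⟨rfl, rfl⟩) j1 j2) e.2).symm
      · exact .inl (all (jj (.inl ⟨rfl, rfl⟩) j1 j2))
  · simp only [HasReduction, hn]
    constructor
    · rintro ⟨A, a, b, h⟩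
      classical
      refine ⟨fun u => decide (u ∈ A), by simpa using a, by simpa using b, fun u hu v hv m hm ne s e => ?_⟩
      have := h _ (List.mem_map_of_mem (mem_prs.2 (by simp only; omega) : (min u v, max u v) ∈ prs n)) u v
        ((jn _ _ _).2 (by simp only [Prod.ext_iff]; omega))
      have k : m ∈ pth n T (min u v, max u v) := by
        rw [hS] at s
        rcases le_total u v with k | k <;> simp [pth, k, hm, s, s.symm]
      simp only [decide_eq_decide] at e ⊢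
      by_cases q : u ∈ A
      · simpa [q] using this.1 q (e.1 q) m k
      · simpa [q] using this.2 q (fun k => q (e.2 k)) m k
    · rintro ⟨c, a, b, h⟩
      refine ⟨{u | c u = true}, a, by simpa using b, List.forall_mem_map.2 fun ⟨x, y⟩ he u v j => ?_⟩
      have := mem_prs.1 he
      have k : c x = c y → ∀ z ∈ pth n T (x, y), c z = c x := fun e => by
        rcases sh x y with ⟨a, -⟩ | ⟨m, d, a, b⟩
        · simp [a, e]
        · simpa [b, e] using h x (by omega) y this.2 m d this.1.ne a e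
      simp only [Set.mem_setOf_eq, Bool.not_eq_true]
      rcases (jn _ _ _).1 j with e | e <;> obtain ⟨rfl, rfl⟩ := Prod.mk.inj e <;>
        exact ⟨fun p q z hz => by rw [k (by rw [p, q]) z hz]; assumption,
          fun p q z hz => by rw [k (by rw [p, q]) z hz]; assumption⟩

end Pool.Agent.H.MP_a08d7f_lc
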