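import Pool.Agent.H.MP_a08d7f_lc.A

namespace Pool.Agent.H.MP_a08d7f_lc

open Pool.Agent.Lib.CX

def G0 (p q m : ℕ) : Prop :=
  (p = 24 ∧ q = 12 ∧ m = 6) ∨ (p = 0 ∧ q = 36 ∧ m = 12) ∨ (p = 18 ∧ q = 30 ∧ m = 0) ∨ (p = 30 ∧ q = 12 ∧ m = 6) ∨
  (p = 6 ∧ q = 36 ∧ m = 18) ∨ (p = 24 ∧ q = 18 ∧ m = 0) ∨ (p = 24 ∧ q = 30 ∧ m = 36)
def T0 (S M x x' y z p q m : ℕ) : Prop :=
  (p ≤ 36 ∧ q ≤ 36 ∧ m ≤ 36 ∧ p % 6 = 0 ∧ q % 6 = 0 ∧ m % 6 = 0 ∧ G0 p q m) ∨ (p = 0 ∧ q = 6 ∧ m = 6 * S) ∨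
  (6 * S ≤ p ∧ q = 12 + 6 * (p % 2) ∧ m = p + 1) ∨ (m < 6 * S ∧ m ≠ 1 ∧ m ≠ 12 ∧ p = 6 * S + 3 * m ∧ q = 1) ∨
  (p < 6 * S ∧ p % 6 = 2 ∧ q = p + 1 ∧ m = 0) ∨ (p < 6 * S ∧ p % 6 = 4 ∧ q + 1 = p ∧ m = 1) ∨
  (m < 6 * S ∧ m % 6 = 4 ∧ p + 2 = m ∧ q = 6 * S + 3 * m + 1) ∨
  (m < 6 * M ∧ m % 6 = 5 ∧ p = 6 * x' + 2 ∧ q = 6 * S + 3 * m + 1 ∧ x' < S) ∨
  (p < 6 * M ∧ p % 6 = 5 ∧ q = 6 * S + 3 * p + 2 ∧ m = 6 * x + 2 ∧ x < S) ∨
  (p < 6 * M ∧ p % 6 = 5 ∧ q = 6 * y + 2 ∧ m = 6 * z + 3 ∧ y < S ∧ z < S ∧ x ≠ y ∧ y ≠ z)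
set_option synthInstance.maxSize 2000 in
instance (S M x x' y z p q m) : Decidable (T0 S M x x' y z p q m) := by unfold T0 G0; infer_instance

def T1 (S M : ℕ) (C : ℕ → T3 ℕ) (p q m : ℕ) : Prop :=
  T0 S M (C (p / 6)).1 (C (m / 6)).1 (C (p / 6)).2.1 (C (p / 6)).2.2 p q m

section
variable {S M : ℕ} {C : ℕ → T3 ℕ} (hS : M + 7 ≤ S) {p q m k : ℕ}
include hS

theorem f1 (a : T1 S M C p q m) (b : T1 S M C p q k) : m = k := by
  simp only [T1, T0, G0] at a b
  rcases a with a | a | a | a | a | a | a | a | a | a <;> omega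

theorem f2 (a : T1 S M C p q m) (b : T1 S M C q p k) : False := by
  simp only [T1, T0, G0] at a b
  rcases a with a | a | a | a | a | a | a | a | a | a <;> omega

theorem f3 (a : T1 S M C p q m) (b : T1 S M C p m k) : False := by
  simp only [T1, T0, G0] at a b
  rcases a with a | a | a | a | a | a | a | a | a | a <;> omega

theorem f4 (a : T1 S M C p q m) (b : T1 S M C m p k) : False := by
  simp only [T1, T0, G0] at a b
  rcases a with a | a | a | a | a | a | a | a | a | a <;> omega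

theorem f5 (a : T1 S M C p q m) (b : T1 S M C q m k) : False := by
  simp only [T1, T0, G0] at a b
  rcases a with a | a | a | a | a | a | a | a | a | a <;> omega

theorem f6 (a : T1 S M C p q m) (b : T1 S M C m q k) : False := by
  simp only [T1, T0, G0] at a b
  rcases a with a | a | a | a | a | a | a | a | a | a <;> omega

theorem f7 (a : T1 S M C p q m) : p ≠ m ∧ q ≠ m ∧ p ≠ q := by
  simp only [T1, T0, G0] at a
  omega

end

set_option synthInstance.maxSize 2000 in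
theorem main {S M : ℕ} {C : ℕ → T3 ℕ} (hS : M + 7 ≤ S)
    (hC : ∀ j < M, (C j).dist ∧ (C j).1 < S ∧ (C j).2.1 < S ∧ (C j).2.2 < S) :
    (∃ v : ℕ → Bool, ∀ j < M, nae (v (C j).1) (v (C j).2.1) (v (C j).2.2) = true) ↔
      ∃ c : ℕ → Bool, (∃ u < 24 * S, c u = true) ∧ (∃ u < 24 * S, c u = false) ∧ ∀ u < 24 * S, ∀ v < 24 * S,
        ∀ m < 24 * S, u ≠ v → (T1 S M C u v m ∨ T1 S M C v u m) → c u = c v → c m = c u := by
  constructor
  · rintro ⟨v, hv⟩
    let c : ℕ → Bool := fun u => if 6 * S ≤ u ∨ u % 6 = 0 then false else if u % 6 = 1 then true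
      else if u % 6 = 3 then !v (u / 6) else if u % 6 = 5 then v (C (u / 6)).1 else v (u / 6)
    have c0 : ∀ u, 6 * S ≤ u ∨ u % 6 = 0 → c u = false := fun u h => if_pos h
    have c1 : c 1 = true := (if_neg (by omega)).trans rfl
    have c2 : ∀ x < S, c (6 * x + 2) = v x ∧ c (6 * x + 3) = !v x ∧ c (6 * x + 4) = v x ∧
        c (6 * x + 5) = v (C x).1 := fun x h => by
      simp [c, Nat.add_mod, Nat.add_div]; omega
    have : ∀ p q m, T1 S M C p q m → c p = c q → c m = c p := fun p q m a => by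
      rcases a with a | a | a | a | a | a | a | a | a | a
      · rw [c0 p (by omega), c0 m (by omega)]; simp
      · rw [c0 p (by omega), c0 m (by omega)]; simp
      · rw [c0 p (by omega), c0 m (by omega)]; simp
      · rw [c0 p (by omega), a.2.2.2.2, c1]; simp
      · obtain ⟨x, rfl⟩ : ∃ x, p = 6 * x + 2 := ⟨p / 6, by omega⟩
        have := c2 x (by omega)
        rw [show q = 6 * x + 3 by omega, this.2.1, this.1]; cases v x <;> simp
      · obtain ⟨x, rfl⟩ : ∃ x, p = 6 * x + 4 := ⟨p / 6, by omega⟩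
        have := c2 x (by omega)
        rw [show q = 6 * x + 3 by omega, this.2.1, this.2.2.1]; cases v x <;> simp
      · have := c2 (p / 6) (by omega)
        rw [show m = 6 * (p / 6) + 4 by omega, this.2.2.1, ← this.1, show 6 * (p / 6) + 2 = p by omega]; simp
      · rw [a.2.2.1, (c2 _ a.2.2.2.2).1, ← (c2 (m / 6) (by omega)).2.2.2, show 6 * (m / 6) + 5 = m by omega]; simp
      · rw [a.2.2.2.1, (c2 _ a.2.2.2.2).1, ← (c2 (p / 6) (by omega)).2.2.2, show 6 * (p / 6) + 5 = p by omega]; simp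
      · have := hv (p / 6) (by omega)
        have e := (c2 (p / 6) (by omega)).2.2.2
        rw [show 6 * (p / 6) + 5 = p by omega] at e
        rw [a.2.2.1, a.2.2.2.1, (c2 _ a.2.2.2.2.1).1, (c2 _ a.2.2.2.2.2.1).2.1, e]
        revert this
        generalize v _ = x, v (C (p / 6)).2.1 = y, v (C (p / 6)).2.2 = z
        revert x y z; decide
    exact ⟨c, ⟨1, by omega, c1⟩, ⟨0, by omega, c0 0 (.inr rfl)⟩, fun p _ q _ m _ _ a e =>
      a.elim (fun a => this p q m a e) fun a => (this q p m a e.symm).trans e.symm⟩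
  · rintro ⟨c, ⟨u1, a1, b1⟩, ⟨u2, a2, b2⟩, h⟩
    replace h : ∀ p q m, p < 24 * S → q < 24 * S → m < 24 * S → T1 S M C p q m → c p = c q → c m = c p :=
      fun p q m a b d e => h p a q b m d (f7 hS e).2.2 (.inl e)
    have g : c 6 = c 0 ∧ c 12 = c 0 ∧ c 18 = c 0 := by
      have k : ∀ p q m, G0 p q m → c p = c q → c m = c p := fun p q m a => by
        have : p ≤ 36 ∧ q ≤ 36 ∧ m ≤ 36 ∧ p % 6 = 0 ∧ q % 6 = 0 ∧ m % 6 = 0 := by simp only [G0] at a; omega
        exact h p q m (by omega) (by omega) (by omega) (.inl (by tauto))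
      have k1 := k 24 12 6 (by simp [G0])
      have k2 := k 0 36 12 (by simp [G0])
      have k3 := k 18 30 0 (by simp [G0])
      have k4 := k 30 12 6 (by simp [G0])
      have k5 := k 6 36 18 (by simp [G0])
      have k6 := k 24 18 0 (by simp [G0])
      have k7 := k 24 30 36 (by simp [G0])
      revert k1 k2 k3 k4 k5 k6 k7
      generalize c 0 = x0, c 6 = x1, c 12 = x2, c 18 = x3, c 24 = x4, c 30 = x5, c 36 = x6
      revert x0 x1 x2 x3 x4 x5 x6; decide
    have ch : ∀ i < 18 * S, c (6 * S + i) = c 0 := fun i => by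
      induction i with
      | zero => exact fun _ => h 0 6 _ (by omega) (by omega) (by omega) (by simp [T1, T0]) g.1.symm
      | succ i ih =>
        intro hi
        have := ih (by omega)
        refine (h (6 * S + i) (12 + 6 * ((6 * S + i) % 2)) _ (by omega) (by omega) (by omega)
          (.inr (.inr (.inl ⟨by omega, rfl, rfl⟩))) ?_).trans this
        rcases Nat.mod_two_eq_zero_or_one (6 * S + i) with e | e <;> simp [e, this, g]
    have ne : c 1 ≠ c 0 := fun e => by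
      have : ∀ u < 24 * S, c u = c 0 := fun u hu => by
        by_cases k : u < 6 * S
        · by_cases k1 : u = 1
          · rw [k1, e]
          by_cases k2 : u = 12
          · rw [k2, g.2.1]
          have := ch (3 * u) (by omega)
          exact (h _ 1 u (by omega) (by omega) hu (.inr (.inr (.inr (.inl ⟨k, k1, k2, rfl, rfl⟩))))
            (this.trans e.symm)).trans this
        · simpa [Nat.add_sub_cancel' (not_lt.1 k)] using ch (u - 6 * S) (by omega)
      simp [this u1 a1, this u2 a2] at b1 b2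
      simp [b1] at b2
    refine ⟨fun x => c (6 * x + 2), fun j hj => ?_⟩
    obtain ⟨⟨d1, -, d3⟩, l1, l2, l3⟩ := hC j hj
    have e : (6 * j + 5) / 6 = j := by omega
    have k1 := h (6 * (C j).2.2 + 2) (6 * (C j).2.2 + 3) 0 (by omega) (by omega) (by omega)
      (.inr (.inr (.inr (.inr (.inl ⟨by omega, by omega, rfl, rfl⟩)))))
    have k2 := h (6 * (C j).2.2 + 4) (6 * (C j).2.2 + 3) 1 (by omega) (by omega) (by omega)
      (.inr (.inr (.inr (.inr (.inr (.inl ⟨by omega, by omega, rfl, rfl⟩))))))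
    have k3 := h (6 * (C j).2.2 + 2) (6 * S + (3 * (6 * (C j).2.2 + 4) + 1)) (6 * (C j).2.2 + 4) (by omega) (by omega)
      (by omega) (.inr (.inr (.inr (.inr (.inr (.inr (.inl ⟨by omega, by omega, rfl, rfl⟩)))))))
    have k4 := h (6 * (C j).1 + 2) (6 * S + (3 * (6 * j + 5) + 1)) (6 * j + 5) (by omega) (by omega)
      (by omega) (.inr (.inr (.inr (.inr (.inr (.inr (.inr (.inl ⟨by omega, by omega, by rw [e], rfl, by rwa [e]⟩))))))))
    have k5 := h (6 * j + 5) (6 * S + (3 * (6 * j + 5) + 2)) (6 * (C j).1 + 2) (by omega) (by omega)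
      (by omega) (.inr (.inr (.inr (.inr (.inr (.inr (.inr (.inr (.inl ⟨by omega, by omega, rfl, by rw [e], by rwa [e]⟩)))))))))
    have k6 := h (6 * j + 5) (6 * (C j).2.1 + 2) (6 * (C j).2.2 + 3) (by omega) (by omega)
      (by omega) (.inr (.inr (.inr (.inr (.inr (.inr (.inr (.inr (.inr ⟨by omega, by omega, by rw [e], by rw [e], by rwa [e], by rwa [e], by rwa [e], by rwa [e]⟩)))))))))
    rw [ch _ (by omega)] at k3 k4 k5
    beta_reduce
    revert ne k1 k2 k3 k4 k5 k6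
    generalize c 0 = x0, c 1 = x1, c (6 * (C j).1 + 2) = x2, c (6 * (C j).2.1 + 2) = x3, c (6 * (C j).2.2 + 2) = x4,
      c (6 * (C j).2.2 + 3) = x5, c (6 * (C j).2.2 + 4) = x6, c (6 * j + 5) = x7
    revert x0 x1 x2 x3 x4 x5 x6 x7; decide

end Pool.Agent.H.MP_a08d7f_lc
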