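import Pool.Agent.H.MP_a08d7f_lc.B
import Pool.Agent.Lib.lead.CXSat

namespace Pool.Agent.H.MP_a08d7f_lc

open Pool.Agent.Lib.CX

def TT (φ : List (T3 ℕ)) (t : ℕ × ℕ × ℕ) : Bool :=
  decide (T0 (3 * φ.length + 7) φ.length (φ.getD (t.1 / 6) (0, 0, 0)).1 (φ.getD (t.2.2 / 6) (0, 0, 0)).1
    (φ.getD (t.1 / 6) (0, 0, 0)).2.1 (φ.getD (t.1 / 6) (0, 0, 0)).2.2 t.1 t.2.1 t.2.2)

def red (φ : List (T3 ℕ)) : Gr × List (List ℕ) := sys (24 * (3 * φ.length + 7)) (TT φ)

set_option synthInstance.maxSize 2000 in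
theorem pt0 {α : Type} [Enc α] {S M x x' y z p q m : α → ℕ} (hS : PT S) (hM : PT M) (hx : PT x) (hx' : PT x')
    (hy : PT y) (hz : PT z) (hp : PT p) (hq : PT q) (hm : PT m) :
    PT fun a => decide (T0 (S a) (M a) (x a) (x' a) (y a) (z a) (p a) (q a) (m a)) := by
  unfold T0 G0; fun_prop

theorem pt1 : PT fun a : List (T3 ℕ) × ℕ × ℕ × ℕ => TT a.1 a.2 := by
  unfold TT; apply pt0 <;> fun_prop

theorem pt2 {α : Type} [Enc α] {n : α → ℕ} {T : α → ℕ × ℕ × ℕ → Bool} (h1 : PT n) (h2 : PB n)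
    (h3 : PT fun a : α × ℕ × ℕ × ℕ => T a.1 a.2) : PT fun a => sys (n a) (T a) := by
  have a : PT fun a => prs (n a) := by unfold prs; fun_prop
  have c : PT fun a : (α × ℕ × ℕ) × ℕ => T a.1.1 (a.1.2.1, a.1.2.2, a.2) :=
    h3.comp (g := fun a : (α × ℕ × ℕ) × ℕ => (a.1.1, a.1.2.1, a.1.2.2, a.2)) (by fun_prop)
  have d : PT fun a : (α × ℕ × ℕ) × ℕ => T a.1.1 (a.1.2.2, a.1.2.1, a.2) :=
    h3.comp (g := fun a : (α × ℕ × ℕ) × ℕ => (a.1.1, a.1.2.2, a.1.2.1, a.2)) (by fun_prop)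
  have b : PT fun a : α × ℕ × ℕ => pth (n a.1) (T a.1) a.2 := by
    unfold pth
    exact PT.append (PT.cons (by fun_prop) (PT.filter (c.or d) (by fun_prop))) (by fun_prop)
  exact (PT.pair (by fun_prop) (PT.filter (PT.decide_eq b.length (by fun_prop)) a)).pair (PT.map b a)

theorem pt_red : PT red := pt2 (by fun_prop) (by fun_prop) pt1

theorem spec (φ : List (T3 ℕ)) : (PathSys (red φ).1 (red φ).2 ∧ Consistent (red φ).2) ∧
    (HasReduction (red φ).1 (red φ).2 ↔ ∃ c : ℕ → Bool, (∃ u < 24 * (3 * φ.length + 7), c u = true) ∧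
      (∃ u < 24 * (3 * φ.length + 7), c u = false) ∧ ∀ u < 24 * (3 * φ.length + 7), ∀ v < 24 * (3 * φ.length + 7),
      ∀ m < 24 * (3 * φ.length + 7), u ≠ v →
        (T1 (3 * φ.length + 7) φ.length (fun j => φ.getD j (0, 0, 0)) u v m ∨
          T1 (3 * φ.length + 7) φ.length (fun j => φ.getD j (0, 0, 0)) v u m) → c u = c v → c m = c u) := by
  have hS : φ.length + 7 ≤ 3 * φ.length + 7 := by omega
  refine gen _ _ (fun u v m => T1 (3 * φ.length + 7) φ.length (fun j => φ.getD j (0, 0, 0)) u v m ∨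
    T1 (3 * φ.length + 7) φ.length (fun j => φ.getD j (0, 0, 0)) v u m) (fun u v m => ?_) (fun u v m k a b => ?_)
    fun u v m a => ⟨?_, fun k b => ?_⟩
  · simp only [TT, T1, decide_eq_true_eq]
  · rcases a with a | a <;> rcases b with b | b
    exacts [f1 hS a b, (f2 hS a b).elim, (f2 hS a b).elim, f1 hS a b]
  · exact a.elim (fun a => (f7 hS a).1) fun a => (f7 hS a).2.1
  · rcases a with a | a <;> rcases b with b | b
    exacts [f3 hS a b, f4 hS a b, f5 hS a b, f6 hS a b]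

attribute [local irreducible] red in
theorem hard : NPHard fun a : {a : Gr × List (List ℕ) // PathSys a.1 a.2 ∧ Consistent a.2} =>
    HasReduction a.1.1 a.1.2 :=
  NPHard.of_nae (fun φ => ⟨red φ, (spec φ).1⟩) (pt_red.subtype _) fun φ h => by
    refine .trans ?_ ((main (by omega) fun j hj => ?_).trans (spec φ).2.symm)
    · exact exists_congr fun v => by
        simp only [List.forall_mem_iff_getElem]
        exact forall_congr' fun j => forall_congr' fun hj => by rw [List.getD_eq_getElem _ _ hj]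
    · rw [List.getD_eq_getElem _ _ hj]
      obtain ⟨a, b⟩ := h _ (List.getElem_mem hj)
      simp only [T3.vars, List.forall_mem_cons] at b
      exact ⟨a, by omega, by omega, by omega⟩

end Pool.Agent.H.MP_a08d7f_lc
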