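import Pool.Agent.Lib.lead.CXGraph

namespace Pool.Agent.H.MP_a08d7f_lc

open Pool.Agent.Lib.CX

/-- the vertex sequence `p` has end points `u` and `v` -/
def Joins (p : List ℕ) (u v : ℕ) : Prop :=
  (p.head? = some u ∧ p.getLast? = some v) ∨ (p.head? = some v ∧ p.getLast? = some u)

/-- `P` lists simple paths of the graph, exactly one for every two distinct vertices -/
def PathSys (a : Gr) (P : List (List ℕ)) : Prop :=
  (∀ p ∈ P, 2 ≤ p.length ∧ p.Nodup ∧ p.IsChain fun u v => ∃ hu hv, a.G.Adj ⟨u, hu⟩ ⟨v, hv⟩) ∧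
    ∀ u < a.n, ∀ v < a.n, u ≠ v → ∃! i : Fin P.length, Joins P[i] u v

/-- the subpath of a member between two of its vertices is the member joining them -/
def Consistent (P : List (List ℕ)) : Prop :=
  ∀ p ∈ P, ∀ q, q <:+: p → ∀ r ∈ P, ∀ u v, Joins q u v → Joins r u v → u ≠ v → r = q ∨ r = q.reverse

/-- a partition of the vertices into two nonempty sets, each containing the paths between its vertices -/
def HasReduction (a : Gr) (P : List (List ℕ)) : Prop :=
  ∃ A : Set ℕ, (∃ u < a.n, u ∈ A) ∧ (∃ u < a.n, u ∉ A) ∧ ∀ p ∈ P, ∀ u v, Joins p u v →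
    (u ∈ A → v ∈ A → ∀ x ∈ p, x ∈ A) ∧ (u ∉ A → v ∉ A → ∀ x ∈ p, x ∉ A)

end Pool.Agent.H.MP_a08d7f_lc
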